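import Mathlib

/-!
# Seminormal Noetherian domains all of whose height-one primes are associated to the
normalization quotient

`A = k[x_1, …, x_d]` with `k = 𝔽₂(u_0, u_1, …, t_0, t_1, …)`, `K` is its fraction field, and
`D : A → K` is a derivation of square zero with simple poles such that every prime element of `A` is
a constant up to a unit and is a pole of `D`. The ring of the problem is `R = {a ∈ A : D a ∈ A}`.
-/

namespace Pool.Agent.Results.MP_8f4fb2_ag.AllDimensions

/-! ### The notions of the problem -/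

/-- The normalization `Rⁿ` of a domain `R`: its integral closure in its fraction field. -/
noncomputable def normalization (R : Type) [CommRing R] [IsDomain R] :
    Subalgebra R (FractionRing R) := integralClosure R (FractionRing R)

/-- `R` as a submodule of its normalization. -/
noncomputable def image (R : Type) [CommRing R] [IsDomain R] : Submodule R (normalization R) :=
  LinearMap.range (Algebra.linearMap R (normalization R))

/-- A domain `R` is seminormal when every `x` of its fraction field with `x ^ 2 ∈ R` and `x ^ 3 ∈ R`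
lies in `R`. -/
def IsSeminormal (R : Type) [CommRing R] [IsDomain R] : Prop :=
  ∀ x : FractionRing R, x ^ 2 ∈ Set.range (algebraMap R (FractionRing R)) →
    x ^ 3 ∈ Set.range (algebraMap R (FractionRing R)) →
    x ∈ Set.range (algebraMap R (FractionRing R))

/-- `P` is an associated prime of `M`: `P` is prime and `P = Ann m` for some `m ∈ M`. -/
def IsAssociated {R : Type} [CommRing R] (P : Ideal R) (M : Type) [AddCommGroup M]
    [Module R M] : Prop := P.IsPrime ∧ ∃ m : M, ∀ r : R, r ∈ P ↔ r • m = 0

/-- All the primes of height one are associated primes of `Rⁿ / R`. -/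
def HeightOneAssociated (R : Type) [CommRing R] [IsDomain R] : Prop :=
  ∀ P : Ideal R, P.IsPrime → P.height = 1 → IsAssociated P (normalization R ⧸ image R)

section General

variable {A : Type} [CommRing A] [IsDomain A] {K : Type} [Field K] [Algebra A K]
  [IsFractionRing A K]

/-- A derivation `A → K`. -/
structure Der (A K : Type*) [CommRing A] [Field K] [Algebra A K] where
  /-- the underlying map -/
  toFun : A → K
  map_add' : ∀ a b, toFun (a + b) = toFun a + toFun b
  leibniz' : ∀ a b, toFun (a * b) = algebraMap A K a * toFun b + algebraMap A K b * toFun a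

instance : CoeFun (Der A K) (fun _ => A → K) := ⟨Der.toFun⟩

namespace Der

variable (D : Der A K)

lemma map_add (a b : A) : D (a + b) = D a + D b := D.map_add' a b

lemma leibniz (a b : A) : D (a * b) = algebraMap A K a * D b + algebraMap A K b * D a :=
  D.leibniz' a b

lemma map_zero : D 0 = 0 := by
  have h := D.map_add 0 0
  rw [add_zero] at h
  linear_combination -h

lemma map_one : D 1 = 0 := by
  have h := D.leibniz 1 1
  rw [mul_one, _root_.map_one, one_mul] at h
  linear_combination -h

lemma map_neg (a : A) : D (-a) = -D a := by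
  have h := D.map_add a (-a)
  rw [add_neg_cancel, D.map_zero] at h
  linear_combination -h

lemma map_sub (a b : A) : D (a - b) = D a - D b := by
  rw [sub_eq_add_neg, D.map_add, D.map_neg, sub_eq_add_neg]

end Der

/-- The subring `{a ∈ A : D a ∈ A}` of `A`. -/
def ringOf (D : Der A K) : Subring A where
  carrier := {a | ∃ e : A, D a = algebraMap A K e}
  mul_mem' := by
    rintro a b ⟨e, he⟩ ⟨f, hf⟩
    refine ⟨a * f + b * e, ?_⟩
    rw [D.leibniz, he, hf, map_add, map_mul, map_mul]
  one_mem' := ⟨0, by rw [D.map_one, map_zero]⟩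
  add_mem' := by
    rintro a b ⟨e, he⟩ ⟨f, hf⟩
    exact ⟨e + f, by rw [D.map_add, he, hf, map_add]⟩
  zero_mem' := ⟨0, by rw [D.map_zero, map_zero]⟩
  neg_mem' := by
    rintro a ⟨e, he⟩
    exact ⟨-e, by rw [D.map_neg, he, map_neg]⟩

variable (D : Der A K)

/-- The value of the derivation on the elements of the ring. -/
noncomputable def delta (r : ringOf D) : A := r.2.choose

lemma delta_spec (r : ringOf D) : D (r : A) = algebraMap A K (delta D r) := r.2.choose_spec

lemma delta_eq {r : ringOf D} {e : A} (h : D (r : A) = algebraMap A K e) : delta D r = e :=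
  IsFractionRing.injective A K ((delta_spec D r).symm.trans h)

lemma delta_add (r s : ringOf D) : delta D (r + s) = delta D r + delta D s := by
  apply delta_eq
  rw [Subring.coe_add, D.map_add, delta_spec, delta_spec, map_add]

lemma delta_mul (r s : ringOf D) : delta D (r * s) = (r : A) * delta D s + (s : A) * delta D r := by
  apply delta_eq
  rw [Subring.coe_mul, D.leibniz, delta_spec, delta_spec, map_add, map_mul, map_mul]

lemma delta_one : delta D 1 = 0 := by
  apply delta_eq
  rw [Subring.coe_one, D.map_one, map_zero]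

lemma delta_zero : delta D 0 = 0 := by
  apply delta_eq
  rw [Subring.coe_zero, D.map_zero, map_zero]

variable [CharP A 2]

lemma D_mul_self (u : A) : D (u * u) = 0 := by
  have h2 : (2 : K) = 0 := by
    rw [← map_ofNat (algebraMap A K) 2, ← Nat.cast_ofNat, CharP.cast_eq_zero, map_zero]
  rw [D.leibniz, ← two_mul, h2, zero_mul]

lemma D_sq_mul (u a : A) : D (u * u * a) = algebraMap A K (u * u) * D a := by
  rw [D.leibniz, D_mul_self, mul_zero, add_zero]

lemma sq_mem (u : A) : u * u ∈ ringOf D := ⟨0, by rw [D_mul_self, map_zero]⟩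

/-! ### The primes of the ring -/

/-- The prime of `R` under a prime of `A`. -/
def down (Q : PrimeSpectrum A) : PrimeSpectrum (ringOf D) :=
  ⟨Q.asIdeal.comap (ringOf D).subtype, Q.isPrime.comap _⟩

lemma mem_down {Q : PrimeSpectrum A} {r : ringOf D} :
    r ∈ (down D Q).asIdeal ↔ (r : A) ∈ Q.asIdeal := Iff.rfl

/-- The prime of `A` over a prime of `R`. -/
def up (P : PrimeSpectrum (ringOf D)) : PrimeSpectrum A where
  asIdeal :=
    { carrier := {a | (⟨a * a, sq_mem D a⟩ : ringOf D) ∈ P.asIdeal}
      add_mem' := by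
        intro a b ha hb
        have e : (⟨(a + b) * (a + b), sq_mem D (a + b)⟩ : ringOf D) =
            ⟨a * a, sq_mem D a⟩ + ⟨b * b, sq_mem D b⟩ := by
          apply Subtype.ext
          show (a + b) * (a + b) = a * a + b * b
          exact CharTwo.add_mul_self a b
        show (⟨(a + b) * (a + b), sq_mem D (a + b)⟩ : ringOf D) ∈ P.asIdeal
        rw [e]
        exact P.asIdeal.add_mem ha hb
      zero_mem' := by
        have e : (⟨(0 : A) * 0, sq_mem D 0⟩ : ringOf D) = 0 := by
          apply Subtype.ext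
          exact mul_zero _
        show (⟨(0 : A) * 0, sq_mem D 0⟩ : ringOf D) ∈ P.asIdeal
        rw [e]
        exact P.asIdeal.zero_mem
      smul_mem' := by
        intro c a ha
        have e : (⟨(c * a) * (c * a), sq_mem D (c * a)⟩ : ringOf D) =
            ⟨c * c, sq_mem D c⟩ * ⟨a * a, sq_mem D a⟩ := by
          apply Subtype.ext
          show (c * a) * (c * a) = c * c * (a * a)
          ring
        show (⟨(c * a) * (c * a), sq_mem D (c * a)⟩ : ringOf D) ∈ P.asIdeal
        rw [e]
        exact P.asIdeal.mul_mem_left _ ha }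
  isPrime := by
    refine ⟨?_, ?_⟩
    · rw [Ideal.ne_top_iff_one]
      intro h
      have e : (⟨(1 : A) * 1, sq_mem D 1⟩ : ringOf D) = 1 := by
        apply Subtype.ext
        exact mul_one _
      have h' : (⟨(1 : A) * 1, sq_mem D 1⟩ : ringOf D) ∈ P.asIdeal := h
      rw [e] at h'
      exact (Ideal.ne_top_iff_one _).1 P.isPrime.ne_top h'
    · intro a b hab
      have e : (⟨(a * b) * (a * b), sq_mem D (a * b)⟩ : ringOf D) =
          ⟨a * a, sq_mem D a⟩ * ⟨b * b, sq_mem D b⟩ := by
        apply Subtype.ext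
        show (a * b) * (a * b) = a * a * (b * b)
        ring
      have h' : (⟨(a * b) * (a * b), sq_mem D (a * b)⟩ : ringOf D) ∈ P.asIdeal := hab
      rw [e] at h'
      exact P.isPrime.mem_or_mem h'

lemma mem_up {P : PrimeSpectrum (ringOf D)} {a : A} :
    a ∈ (up D P).asIdeal ↔ (⟨a * a, sq_mem D a⟩ : ringOf D) ∈ P.asIdeal := Iff.rfl

/-- The spectra of `R` and of `A` are isomorphic ordered sets. -/
def specIso : PrimeSpectrum A ≃o PrimeSpectrum (ringOf D) where
  toFun := down D
  invFun := up D
  left_inv Q := by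
    ext a
    show a ∈ (up D (down D Q)).asIdeal ↔ a ∈ Q.asIdeal
    rw [mem_up, mem_down]
    exact ⟨fun h => (Q.isPrime.mem_or_mem h).elim id id, fun h => Q.asIdeal.mul_mem_left a h⟩
  right_inv P := by
    ext r
    show r ∈ (down D (up D P)).asIdeal ↔ r ∈ P.asIdeal
    rw [mem_down, mem_up]
    have e : (⟨(r : A) * r, sq_mem D r⟩ : ringOf D) = r * r := rfl
    rw [e]
    exact ⟨fun h => (P.isPrime.mem_or_mem h).elim id id, fun h => P.asIdeal.mul_mem_left r h⟩
  map_rel_iff' := by
    intro Q Q'
    show down D Q ≤ down D Q' ↔ Q ≤ Q'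
    constructor
    · intro h a ha
      have h1 : (⟨a * a, sq_mem D a⟩ : ringOf D) ∈ (down D Q).asIdeal :=
        (mem_down D).2 (Q.asIdeal.mul_mem_left a ha)
      have h2 : a * a ∈ Q'.asIdeal := (mem_down D).1 (h h1)
      exact (Q'.isPrime.mem_or_mem h2).elim id id
    · intro h r hr
      exact h hr

lemma ringKrullDim_ringOf : ringKrullDim (ringOf D) = ringKrullDim A :=
  (Order.krullDim_eq_of_orderIso (specIso D)).symm

/-- Every prime of height one is the annihilator of a class of `A / R`. -/
lemma height_one [IsNoetherianRing (ringOf D)] [UniqueFactorizationMonoid A]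
    (hD : ∀ g : A, Prime g → ∃ b g' : A, Associated g g' ∧ D b = (algebraMap A K g')⁻¹)
    (P : Ideal (ringOf D)) [P.IsPrime] (hP : P.height = 1) :
    ∃ b : A, ∀ r : ringOf D, r ∈ P ↔ (r : A) * b ∈ ringOf D := by
  -- a prime element `f` of `A` with `f ^ 2 ∈ P`
  obtain ⟨r, hrP, hr⟩ := Submodule.exists_mem_ne_zero_of_ne_bot (Ideal.ne_bot_of_height_eq_one hP)
  have key : ∀ a : A, a ≠ 0 → (⟨a * a, sq_mem D a⟩ : ringOf D) ∈ P →
      ∃ f : A, Prime f ∧ (⟨f * f, sq_mem D f⟩ : ringOf D) ∈ P := by
    intro a
    refine UniqueFactorizationMonoid.induction_on_prime a ?_ ?_ ?_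
    · intro h
      exact absurd rfl h
    · intro x hx hx0 hxP
      exfalso
      obtain ⟨y, hy⟩ := hx.exists_right_inv
      have e : (⟨x * x, sq_mem D x⟩ : ringOf D) * ⟨y * y, sq_mem D y⟩ = 1 := by
        apply Subtype.ext
        show x * x * (y * y) = 1
        linear_combination (x * y + 1) * hy
      have h1 : (1 : ringOf D) ∈ P := by
        rw [← e]
        exact P.mul_mem_right _ hxP
      exact (Ideal.ne_top_iff_one P).1 (Ideal.IsPrime.ne_top') h1
    · intro x p hx hp ih hpx hpxP
      have e : (⟨p * x * (p * x), sq_mem D (p * x)⟩ : ringOf D) =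
          ⟨p * p, sq_mem D p⟩ * ⟨x * x, sq_mem D x⟩ := by
        apply Subtype.ext
        show p * x * (p * x) = p * p * (x * x)
        ring
      rw [e] at hpxP
      rcases Ideal.IsPrime.mem_or_mem ‹P.IsPrime› hpxP with h | h
      · exact ⟨p, hp, h⟩
      · exact ih hx h
  obtain ⟨f, hf, hfP⟩ := key (r : A) (fun h => hr (Subtype.ext h)) (by
    have e : (⟨(r : A) * r, sq_mem D r⟩ : ringOf D) = r * r := rfl
    rw [e]
    exact P.mul_mem_left r hrP)
  -- the prime `f A ∩ R`
  have hfprime : (Ideal.span {f}).IsPrime := (Ideal.span_singleton_prime hf.ne_zero).2 hf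
  have hPf : (Ideal.span {f}).comap (ringOf D).subtype = P := by
    have hpr : ((Ideal.span {f}).comap (ringOf D).subtype).IsPrime := hfprime.comap _
    have hfh : ((Ideal.span {f}).comap (ringOf D).subtype).FiniteHeight := inferInstance
    refine Ideal.eq_of_le_of_height_le (I := (Ideal.span {f}).comap (ringOf D).subtype)
      (J := P) ?_ ?_
    · intro t ht
      have ht' : (t : A) ∈ Ideal.span {f} := ht
      obtain ⟨a, ha⟩ := Ideal.mem_span_singleton.1 ht'
      have e : t * t = ⟨f * f, sq_mem D f⟩ * ⟨a * a, sq_mem D a⟩ := by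
        apply Subtype.ext
        show (t : A) * t = f * f * (a * a)
        rw [ha]
        ring
      have h1 : t * t ∈ P := by
        rw [e]
        exact P.mul_mem_right _ hfP
      exact (Ideal.IsPrime.mem_or_mem ‹P.IsPrime› h1).elim id id
    · rw [hP, Order.one_le_iff_ne_zero, Ne, Ideal.height_eq_zero_iff_eq_bot]
      intro hbot
      have h1 : (⟨f * f, sq_mem D f⟩ : ringOf D) ∈
          (Ideal.span {f}).comap (ringOf D).subtype :=
        Ideal.mem_comap.2 (Ideal.mem_span_singleton.2 ⟨f, rfl⟩)
      rw [hbot, Ideal.mem_bot] at h1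
      have h2 : f * f = 0 := congrArg Subtype.val h1
      exact hf.ne_zero (mul_self_eq_zero.1 h2)
  obtain ⟨b, f', hff, hb⟩ := hD f hf
  have hspan : Ideal.span {f} = Ideal.span {f'} := Ideal.span_singleton_eq_span_singleton.2 hff
  rw [hspan] at hPf
  have hf1 : algebraMap A K f' ≠ 0 := by
    rw [Ne, map_eq_zero_iff _ (IsFractionRing.injective A K)]
    exact hff.ne_zero_iff.1 hf.ne_zero
  refine ⟨b, fun t => ?_⟩
  rw [← hPf]
  have hDt : D ((t : A) * b) = algebraMap A K t / algebraMap A K f' +
      algebraMap A K (b * delta D t) := by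
    rw [D.leibniz, hb, delta_spec, map_mul, div_eq_mul_inv]
  constructor
  · intro ht
    have ht' : (t : A) ∈ Ideal.span {f'} := ht
    obtain ⟨a, ha⟩ := Ideal.mem_span_singleton.1 ht'
    refine ⟨a + b * delta D t, ?_⟩
    rw [hDt, map_add, ha, map_mul _ f' a, mul_div_cancel_left₀ _ hf1]
  · rintro ⟨e, he⟩
    show (t : A) ∈ Ideal.span {f'}
    rw [Ideal.mem_span_singleton]
    refine ⟨e - b * delta D t, ?_⟩
    apply IsFractionRing.injective A K
    rw [hDt] at he
    rw [map_mul _ f', map_sub, ← he]
    field_simp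
    ring

/-! ### The fraction field -/

lemma exists_frac (z : K) : ∃ r t : ringOf D, t ≠ 0 ∧
    z = algebraMap A K (r : A) / algebraMap A K (t : A) := by
  obtain ⟨a, b, hb, rfl⟩ := IsFractionRing.div_surjective (A := A) z
  obtain ⟨u, v, hv, huv⟩ := IsFractionRing.div_surjective (A := A) (D (a * b))
  have hb0 : b ≠ 0 := nonZeroDivisors.ne_zero hb
  have hv0 : v ≠ 0 := nonZeroDivisors.ne_zero hv
  have hb1 : algebraMap A K b ≠ 0 := by
    rw [Ne, map_eq_zero_iff _ (IsFractionRing.injective A K)]
    exact hb0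
  have hv1 : algebraMap A K v ≠ 0 := by
    rw [Ne, map_eq_zero_iff _ (IsFractionRing.injective A K)]
    exact hv0
  refine ⟨⟨v * v * (a * b), u * v, ?_⟩, ⟨(v * b) * (v * b), sq_mem D (v * b)⟩, ?_, ?_⟩
  · rw [D_sq_mul, ← huv, map_mul, map_mul]
    field_simp
  · intro h
    have h2 : v * b * (v * b) = 0 := congrArg Subtype.val h
    exact mul_ne_zero hv0 hb0 (mul_self_eq_zero.1 h2)
  · simp only [map_mul]
    field_simp

/-- Every prime of height one is the annihilator of a class of `Rⁿ / R`. -/
lemma height_one_frac [IsNoetherianRing (ringOf D)] [UniqueFactorizationMonoid A]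
    (hD : ∀ g : A, Prime g → ∃ b g' : A, Associated g g' ∧ D b = (algebraMap A K g')⁻¹)
    (P : Ideal (ringOf D))
    (hP : P.IsPrime) (hP1 : P.height = 1) :
    IsAssociated P (normalization (ringOf D) ⧸ image (ringOf D)) := by
  obtain ⟨b, hb⟩ := height_one D hD P hP1
  -- `b` as an element of the fraction field of `R`
  obtain ⟨v, t, ht, hvt⟩ := exists_frac D (algebraMap A K b)
  have hinj := IsFractionRing.injective (ringOf D) (FractionRing (ringOf D))
  have ht0 : algebraMap (ringOf D) (FractionRing (ringOf D)) t ≠ 0 := by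
    rw [Ne, map_eq_zero_iff _ hinj]
    exact ht
  have htA : (t : A) ≠ 0 := fun h => ht (Subtype.ext h)
  have htK : algebraMap A K t ≠ 0 := by
    rw [Ne, map_eq_zero_iff _ (IsFractionRing.injective A K)]
    exact htA
  have hbt : (t : A) * b = v := by
    apply IsFractionRing.injective A K
    rw [map_mul, hvt, mul_div_cancel₀ _ htK]
  set β : FractionRing (ringOf D) := algebraMap _ _ v / algebraMap _ _ t with hβ
  -- `R` multiples
  have key : ∀ r s : ringOf D, algebraMap (ringOf D) (FractionRing (ringOf D)) r * β =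
      algebraMap _ _ s ↔ (r : A) * b = s := by
    intro r s
    rw [hβ, mul_div_assoc', div_eq_iff ht0, ← map_mul, ← map_mul, hinj.eq_iff]
    constructor
    · intro h
      have h1 : (r : A) * v = s * t := congrArg Subtype.val h
      apply mul_left_cancel₀ htA
      rw [← hbt] at h1
      linear_combination h1
    · intro h
      apply Subtype.ext
      show (r : A) * v = s * t
      rw [← hbt, ← h]
      ring
  -- `β` is integral
  have hint : β ∈ normalization (ringOf D) := by
    have h2 : β * β = algebraMap _ _ (⟨b * b, sq_mem D b⟩ : ringOf D) := by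
      have e : v * v = ⟨b * b, sq_mem D b⟩ * (t * t) := by
        apply Subtype.ext
        show (v : A) * v = b * b * (t * t)
        rw [← hbt]
        ring
      rw [hβ, div_mul_div_comm, div_eq_iff (mul_ne_zero ht0 ht0), ← map_mul, ← map_mul,
        ← map_mul, e]
    show IsIntegral (ringOf D) β
    refine ⟨Polynomial.X ^ 2 - Polynomial.C (⟨b * b, sq_mem D b⟩ : ringOf D),
      Polynomial.monic_X_pow_sub_C _ two_ne_zero, ?_⟩
    rw [Polynomial.eval₂_sub, Polynomial.eval₂_X_pow, Polynomial.eval₂_C, pow_two, h2, sub_self]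
  refine ⟨hP, Submodule.Quotient.mk ⟨β, hint⟩, fun r => ?_⟩
  rw [hb r, ← Submodule.Quotient.mk_smul, Submodule.Quotient.mk_eq_zero, image,
    LinearMap.mem_range]
  constructor
  · intro h
    refine ⟨⟨(r : A) * b, h⟩, ?_⟩
    apply Subtype.ext
    show algebraMap (ringOf D) (FractionRing (ringOf D)) ⟨(r : A) * b, h⟩ = r • β
    rw [Algebra.smul_def]
    exact ((key r _).2 rfl).symm
  · rintro ⟨s, hs⟩
    have hs' : algebraMap (ringOf D) (FractionRing (ringOf D)) s = r • β :=
      congrArg Subtype.val hs
    rw [Algebra.smul_def] at hs'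
    have h3 := (key r s).1 hs'.symm
    rw [h3]
    exact s.2

end General

section System

variable {A : Type} [CommRing A] [IsDomain A] {K : Type} [Field K] [Algebra A K]
  [IsFractionRing A K]

/-- The properties of the derivation and of the system of denominators. -/
structure Sys (D : Der A K) (h : ℕ → A) : Prop where
  h0 : h 0 = 1
  dvd : ∀ n, h n ∣ h (n + 1)
  const : ∀ n, D (h n) = 0
  sqf : ∀ n, Squarefree (h n)
  ex : ∀ n, ∃ t : A, D t = (algebraMap A K (h n))⁻¹
  den : ∀ a : A, ∃ n, ∃ c : A, D c = 0 ∧ algebraMap A K (h n) * D a = algebraMap A K c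
  prime : ∀ q : A, Prime q → ∃ f : A, Associated q f ∧ D f = 0 ∧ ∃ n, q ∣ h n

/-- The ring of constants. -/
def consts (D : Der A K) : Subring A where
  carrier := {a | D a = 0}
  mul_mem' := by
    intro a b ha hb
    show D (a * b) = 0
    rw [D.leibniz, show D a = 0 from ha, show D b = 0 from hb, mul_zero, mul_zero, add_zero]
  one_mem' := D.map_one
  add_mem' := by
    intro a b ha hb
    show D (a + b) = 0
    rw [D.map_add, show D a = 0 from ha, show D b = 0 from hb, add_zero]
  zero_mem' := D.map_zero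
  neg_mem' := by
    intro a ha
    show D (-a) = 0
    rw [D.map_neg, show D a = 0 from ha, neg_zero]

variable {D : Der A K} {h : ℕ → A}

lemma const_mul {a c : A} (hc : D c = 0) : D (c * a) = algebraMap A K c * D a := by
  rw [D.leibniz, hc, mul_zero, add_zero]

lemma Sys.ne_zero (S : Sys D h) (n : ℕ) : h n ≠ 0 := by
  intro h0
  have := S.sqf n
  rw [h0] at this
  exact not_squarefree_zero this

lemma Sys.ne_zero' (S : Sys D h) (n : ℕ) : algebraMap A K (h n) ≠ 0 := by
  rw [Ne, map_eq_zero_iff _ (IsFractionRing.injective A K)]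
  exact S.ne_zero n

lemma Sys.dvd_le (S : Sys D h) {m n : ℕ} (hmn : m ≤ n) : h m ∣ h n := by
  induction hmn with
  | refl => exact dvd_rfl
  | step _ ih => exact ih.trans (S.dvd _)

lemma Sys.den_le (S : Sys D h) (a : A) : ∃ N, ∀ n, N ≤ n → ∃ c : A, D c = 0 ∧
    algebraMap A K (h n) * D a = algebraMap A K c := by
  obtain ⟨N, c, hc, hN⟩ := S.den a
  refine ⟨N, fun n hn => ?_⟩
  obtain ⟨e, he⟩ := S.dvd_le hn
  have he0 : D e = 0 := by
    have h1 : D (h N * e) = 0 := by
      rw [← he]
      exact S.const n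
    rw [const_mul (S.const N)] at h1
    exact (mul_eq_zero.1 h1).resolve_left (S.ne_zero' N)
  refine ⟨e * c, ?_, ?_⟩
  · rw [const_mul he0, hc, mul_zero]
  · rw [he, map_mul, map_mul, ← hN]
    ring

lemma Sys.contract (S : Sys D h) (I : Ideal (consts D)) {z : consts D}
    (hz : (z : A) ∈ I.map (consts D).subtype) : z ∈ I := by
  choose t ht using S.ex
  have key : ∀ y : A, y ∈ I.map (consts D).subtype →
      ∃ N, ∀ n, N ≤ n → ∃ c : A, D c = 0 ∧ algebraMap A K (h n) * D y = algebraMap A K c ∧
        ∃ i ∈ I, (i : A) = y - c * t n := by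
    intro y hy
    refine Submodule.closure_induction (p := fun y _ => ∃ N, ∀ n, N ≤ n → ∃ c : A, D c = 0 ∧
      algebraMap A K (h n) * D y = algebraMap A K c ∧ ∃ i ∈ I, (i : A) = y - c * t n)
      ?_ ?_ ?_ hy
    · refine ⟨0, fun n _ => ⟨0, D.map_zero, ?_, 0, I.zero_mem, ?_⟩⟩
      · rw [D.map_zero, mul_zero, map_zero]
      · rw [zero_mul, sub_zero]
        rfl
    · rintro x y _ _ ⟨N, hN⟩ ⟨M, hM⟩
      refine ⟨max N M, fun n hn => ?_⟩
      obtain ⟨c, hc, hcx, i, hi, hix⟩ := hN n (le_of_max_le_left hn)
      obtain ⟨e, he, hey, j, hj, hjy⟩ := hM n (le_of_max_le_right hn)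
      refine ⟨c + e, ?_, ?_, i + j, I.add_mem hi hj, ?_⟩
      · rw [D.map_add, hc, he, add_zero]
      · rw [D.map_add, mul_add, hcx, hey, map_add]
      · rw [Subring.coe_add, hix, hjy]
        ring
    · rintro a _ ⟨i, hi, rfl⟩
      obtain ⟨N, hN⟩ := S.den_le a
      refine ⟨N, fun n hn => ?_⟩
      obtain ⟨c, hc, hcn⟩ := hN n hn
      have hi0 : D (i : A) = 0 := i.2
      have hac : D (a - c * t n) = 0 := by
        rw [D.map_sub, const_mul hc, ht, ← hcn]
        have := S.ne_zero' n
        field_simp
        ring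
      refine ⟨(i : A) * c, ?_, ?_, ⟨a - c * t n, hac⟩ * i, I.mul_mem_left _ hi, ?_⟩
      · rw [const_mul hi0, hc, mul_zero]
      · show algebraMap A K (h n) * D (a * (i : A)) = _
        rw [mul_comm a, const_mul hi0, map_mul, ← hcn]
        ring
      · show (a - c * t n) * (i : A) = a * (i : A) - (i : A) * c * t n
        ring
  obtain ⟨N, hN⟩ := key z hz
  obtain ⟨c, -, hcz, i, hi, hiz⟩ := hN N le_rfl
  have hz0 : D (z : A) = 0 := z.2
  rw [hz0, mul_zero] at hcz
  have hc0 : c = 0 := by
    apply IsFractionRing.injective A K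
    rw [← hcz, map_zero]
  rw [hc0, zero_mul, sub_zero] at hiz
  have : i = z := Subtype.ext hiz
  rw [← this]
  exact hi

lemma Sys.isNoetherianRing_consts [IsNoetherianRing A] (S : Sys D h) :
    IsNoetherianRing (consts D) := by
  have hinj : Function.Injective (fun I : Ideal (consts D) => I.map (consts D).subtype) := by
    intro I J hIJ
    have hIJ' : I.map (consts D).subtype = J.map (consts D).subtype := hIJ
    apply le_antisymm
    · intro z hz
      apply S.contract J
      rw [← hIJ']
      exact Ideal.mem_map_of_mem (consts D).subtype hz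
    · intro z hz
      apply S.contract I
      rw [hIJ']
      exact Ideal.mem_map_of_mem (consts D).subtype hz
  have hm : Monotone (fun I : Ideal (consts D) => I.map (consts D).subtype) := by
    intro I J hIJ
    exact Ideal.map_mono hIJ
  have hmono := hm.strictMono_of_injective hinj
  have hwf : WellFoundedGT (Ideal (consts D)) := hmono.wellFoundedGT
  exact isNoetherian_iff.2 hwf.wf

/-- The elements of `R` are `a + b θ` with constants `a, b`. -/
lemma Sys.exists_repr (S : Sys D h) : ∃ θ : A, D θ = 1 ∧ ∀ r ∈ ringOf D,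
    ∃ a b : A, D a = 0 ∧ D b = 0 ∧ r = a + b * θ := by
  obtain ⟨θ, hθ⟩ := S.ex 0
  rw [S.h0, map_one, inv_one] at hθ
  refine ⟨θ, hθ, ?_⟩
  rintro r ⟨e, he⟩
  obtain ⟨n, c, hc, hn⟩ := S.den r
  have hce : c = h n * e := by
    apply IsFractionRing.injective A K
    rw [map_mul, ← he, hn]
  have he0 : D e = 0 := by
    rw [hce, const_mul (S.const n)] at hc
    exact (mul_eq_zero.1 hc).resolve_left (S.ne_zero' n)
  refine ⟨r - e * θ, e, ?_, he0, ?_⟩
  · rw [D.map_sub, const_mul he0, hθ, mul_one, he, sub_self]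
  · ring

lemma Sys.isNoetherianRing_ringOf [IsNoetherianRing A] (S : Sys D h) :
    IsNoetherianRing (ringOf D) := by
  have hN := S.isNoetherianRing_consts
  obtain ⟨θ, hθ, hrep⟩ := S.exists_repr
  have hle : consts D ≤ ringOf D := by
    intro a ha
    exact ⟨0, by rw [map_zero]; exact ha⟩
  let alg : Algebra (consts D) (ringOf D) := (Subring.inclusion hle).toAlgebra
  have hθR : θ ∈ ringOf D := ⟨1, by rw [hθ, map_one]⟩
  let f : (consts D) × (consts D) →ₗ[consts D] ringOf D :=
    { toFun := fun p => Subring.inclusion hle p.1 + Subring.inclusion hle p.2 * ⟨θ, hθR⟩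
      map_add' := by
        intro p q
        simp only [Prod.fst_add, Prod.snd_add, map_add]
        ring
      map_smul' := by
        intro c p
        rw [Algebra.smul_def]
        show Subring.inclusion hle (c * p.1) + Subring.inclusion hle (c * p.2) * ⟨θ, hθR⟩ =
          Subring.inclusion hle c * (Subring.inclusion hle p.1 + Subring.inclusion hle p.2 *
            ⟨θ, hθR⟩)
        rw [map_mul, map_mul]
        ring }
  have hf : Function.Surjective f := by
    intro r
    obtain ⟨a, b, ha, hb, hr⟩ := hrep r r.2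
    exact ⟨(⟨a, ha⟩, ⟨b, hb⟩), Subtype.ext hr.symm⟩
  have h1 : IsNoetherian (consts D) (ringOf D) :=
    isNoetherian_of_surjective f (LinearMap.range_eq_top.2 hf)
  exact isNoetherian_of_tower (consts D) h1

lemma dvd_of_squarefree [UniqueFactorizationMonoid A] {c : A} (x : A) : Squarefree x →
    (∀ q, Prime q → q ∣ x → q ∣ c) → x ∣ c := by
  refine UniqueFactorizationMonoid.induction_on_prime x ?_ ?_ ?_
  · intro h0
    exact absurd h0 not_squarefree_zero
  · intro u hu _ _
    exact hu.dvd
  · intro a p ha hp ih hsq hdvd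
    have h1 := squarefree_mul_iff.1 hsq
    exact h1.1.mul_dvd (hdvd p hp (dvd_mul_right p a))
      (ih h1.2.2 fun q hq hqa => hdvd q hq (hqa.trans (dvd_mul_left a p)))

/-- The key step of seminormality. -/
lemma Sys.seminormal_step [UniqueFactorizationMonoid A] (S : Sys D h) {x : A} (e : A)
    (hx : algebraMap A K (x * x) * D x = algebraMap A K e) : x ∈ ringOf D := by
  obtain ⟨n, c, hc, hn⟩ := S.den x
  have hdvd : h n ∣ c := by
    refine dvd_of_squarefree (h n) (S.sqf n) fun q hq hqn => ?_
    by_contra hqc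
    -- `q ∣ x`
    have h1 : x * x * c = h n * e := by
      apply IsFractionRing.injective A K
      rw [map_mul _ (x * x), map_mul _ (h n), ← hn, ← hx]
      ring
    have h2 : q ∣ x * x * c := by
      rw [h1]
      exact hqn.trans (dvd_mul_right _ _)
    have h3 : q ∣ x := by
      rcases hq.dvd_or_dvd h2 with h | h
      · exact (hq.dvd_or_dvd h).elim id id
      · exact absurd h hqc
    obtain ⟨f, hqf, hf, -⟩ := S.prime q hq
    obtain ⟨y, hy⟩ := (hqf.dvd_iff_dvd_left (c := x)).1 h3
    obtain ⟨m, c', -, hm⟩ := S.den y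
    have h4 : c * h m = f * c' * h n := by
      apply IsFractionRing.injective A K
      simp only [map_mul]
      rw [← hn, ← hm, hy, const_mul hf]
      ring
    -- `q ^ 2 ∣ h m`
    obtain ⟨g, hg⟩ := hqn
    obtain ⟨f', hf'⟩ := hqf.dvd
    have h5 : q * q ∣ c * h m := by
      rw [h4, hg, hf']
      exact ⟨f' * c' * g, by ring⟩
    have h6 : q ∣ h m := by
      rcases hq.dvd_or_dvd ((dvd_mul_right q q).trans h5) with h | h
      · exact absurd h hqc
      · exact h
    obtain ⟨g', hg'⟩ := h6
    have h7 : q ∣ g' := by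
      rw [hg', mul_left_comm] at h5
      have h8 : q ∣ c * g' := by
        obtain ⟨w, hw⟩ := h5
        refine ⟨w, mul_left_cancel₀ hq.ne_zero ?_⟩
        rw [hw]
        ring
      rcases hq.dvd_or_dvd h8 with h | h
      · exact absurd h hqc
      · exact h
    obtain ⟨g'', hg''⟩ := h7
    have h9 : q * q ∣ h m := ⟨g'', by rw [hg', hg'']; ring⟩
    exact hq.not_isUnit (S.sqf m q h9)
  obtain ⟨c', hc'⟩ := hdvd
  refine ⟨c', ?_⟩
  apply mul_left_cancel₀ (S.ne_zero' n)
  rw [hn, hc', map_mul]

lemma Sys.isSeminormal [UniqueFactorizationMonoid A] [CharP A 2] (S : Sys D h) :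
    IsSeminormal (ringOf D) := by
  rintro x ⟨r2, hr2⟩ ⟨r3, hr3⟩
  obtain ⟨v, t, ht, rfl⟩ := IsFractionRing.div_surjective (A := ringOf D) x
  have ht' : t ≠ 0 := nonZeroDivisors.ne_zero ht
  have hinj := IsFractionRing.injective (ringOf D) (FractionRing (ringOf D))
  have ht0 : algebraMap (ringOf D) (FractionRing (ringOf D)) t ≠ 0 := by
    rw [Ne, map_eq_zero_iff _ hinj]
    exact ht'
  have htA : (t : A) ≠ 0 := fun h => ht' (Subtype.ext h)
  have htK : algebraMap A K t ≠ 0 := by
    rw [Ne, map_eq_zero_iff _ (IsFractionRing.injective A K)]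
    exact htA
  -- the two equations in `A`
  have e2 : (r2 : A) * (t * t) = v * v := by
    have h1 : r2 * (t * t) = v * v := by
      apply hinj
      rw [map_mul, map_mul, map_mul, hr2, div_pow]
      field_simp
    exact congrArg Subtype.val h1
  have e3 : (r3 : A) * (t * t * t) = v * v * v := by
    have h1 : r3 * (t * t * t) = v * v * v := by
      apply hinj
      rw [map_mul, map_mul, map_mul, map_mul, map_mul, hr3, div_pow]
      field_simp
    exact congrArg Subtype.val h1
  -- `v / t` is in `A`
  obtain ⟨a, ha⟩ : ∃ a : A, algebraMap A K a = algebraMap A K v / algebraMap A K t := by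
    apply IsIntegrallyClosed.isIntegral_iff.1
    refine ⟨Polynomial.X ^ 2 - Polynomial.C (r2 : A),
      Polynomial.monic_X_pow_sub_C _ two_ne_zero, ?_⟩
    rw [Polynomial.eval₂_sub, Polynomial.eval₂_X_pow, Polynomial.eval₂_C, sub_eq_zero, div_pow,
      div_eq_iff (pow_ne_zero 2 htK), pow_two, pow_two, ← map_mul, ← map_mul, ← map_mul, e2]
  have hav : a * t = v := by
    apply IsFractionRing.injective A K
    rw [map_mul, ha, div_mul_cancel₀ _ htK]
  have ha3 : a * a * a = r3 := by
    apply mul_right_cancel₀ (mul_ne_zero (mul_ne_zero htA htA) htA)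
    rw [e3, ← hav]
    ring
  have hD3 : algebraMap A K (a * a) * D a = algebraMap A K (delta D r3) := by
    rw [← D_sq_mul, ha3, delta_spec]
  have haR : a ∈ ringOf D := S.seminormal_step _ hD3
  refine ⟨⟨a, haR⟩, ?_⟩
  rw [eq_div_iff ht0, ← map_mul]
  congr 1
  exact Subtype.ext hav

/-- The ring of a system has all the required properties. -/
lemma Sys.heightOneAssociated [IsNoetherianRing A] [UniqueFactorizationMonoid A] [CharP A 2]
    (S : Sys D h) : HeightOneAssociated (ringOf D) := by
  intro P hP hP1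
  have := S.isNoetherianRing_ringOf
  refine height_one_frac D (fun q hq => ?_) P hP hP1
  obtain ⟨f, hqf, hf, n, hn⟩ := S.prime q hq
  obtain ⟨t, ht⟩ := S.ex n
  obtain ⟨g, hg⟩ := (hqf.dvd_iff_dvd_left (c := h n)).1 hn
  have hf0 : algebraMap A K f ≠ 0 := by
    rw [Ne, map_eq_zero_iff _ (IsFractionRing.injective A K)]
    exact hqf.ne_zero_iff.1 hq.ne_zero
  have hg0 : D g = 0 := by
    have h1 := S.const n
    rw [hg, const_mul hf] at h1
    exact (mul_eq_zero.1 h1).resolve_left hf0
  refine ⟨g * t, f, hqf, ?_⟩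
  have h2 := S.ne_zero' n
  rw [const_mul hg0, ht, hg, map_mul]
  have h3 : algebraMap A K g ≠ 0 := by
    intro h4
    rw [hg, map_mul, h4, mul_zero] at h2
    exact h2 rfl
  field_simp

end System

section Recursion

variable {A : Type} [CommRing A] [IsDomain A] {K : Type} [Field K] [Algebra A K]
  [IsFractionRing A K]

lemma Der.leib (D : Der K K) (a b : K) : D (a * b) = a * D b + b * D a := by
  rw [D.leibniz]
  simp

lemma Der.map_inv (D : Der K K) (a : K) (ha : a ≠ 0) : D (a⁻¹) = -(D a) / (a * a) := by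
  have h := D.leib a a⁻¹
  rw [mul_inv_cancel₀ ha, D.map_one] at h
  field_simp at h ⊢
  linear_combination -h

/-- The difference of two derivations. -/
def Der.diff (D E : Der K K) : Der K K where
  toFun z := D z - E z
  map_add' a b := by rw [D.map_add, E.map_add]; ring
  leibniz' a b := by
    rw [D.leib, E.leib]
    simp only [Algebra.algebraMap_self, RingHom.id_apply]
    ring

/-- The square of a derivation in characteristic two. -/
def Der.square [CharP K 2] (D : Der K K) : Der K K where
  toFun z := D (D z)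
  map_add' a b := by rw [D.map_add, D.map_add]
  leibniz' a b := by
    have h2 : (2 : K) = 0 := CharTwo.two_eq_zero
    rw [D.leib, D.map_add, D.leib, D.leib]
    simp only [Algebra.algebraMap_self, RingHom.id_apply]
    linear_combination D a * D b * h2

/-- The restriction of a derivation of `K` to `A`. -/
def Der.restr (D : Der K K) : Der A K where
  toFun a := D (algebraMap A K a)
  map_add' a b := by rw [_root_.map_add, D.map_add]
  leibniz' a b := by rw [map_mul, D.leib]

/-- The abstract situation: `A` contains units `U n` and elements `T n` on which derivations killing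
`X` can be prescribed arbitrarily. -/
structure Setup (A K : Type) [CommRing A] [Field K] [Algebra A K] (X : Set K)
    (U T : ℕ → A) : Prop where
  unit : ∀ n, IsUnit (U n)
  ex : ∀ u t : ℕ → K, ∃ D : Der K K, (∀ x ∈ X, D x = 0) ∧
    (∀ n, D (algebraMap A K (U n)) = u n) ∧ ∀ n, D (algebraMap A K (T n)) = t n
  gen : ∀ (M : Submodule A K) (D : Der K K), (∀ x ∈ X, D x = 0) →
    (∀ n, D (algebraMap A K (U n)) ∈ M) → (∀ n, D (algebraMap A K (T n)) ∈ M) →
    ∀ a : A, D (algebraMap A K a) ∈ M
  fin : ∀ a : A, ∃ n, ∀ D : Der K K, (∀ x ∈ X, D x = 0) →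
    (∀ m < n, D (algebraMap A K (U m)) = 0) → (∀ m < n, D (algebraMap A K (T m)) = 0) →
    D (algebraMap A K a) = 0

/-- The elements which only depend on the variables of index `< n`. -/
def Lv (X : Set K) (U T : ℕ → A) (n : ℕ) : Set K :=
  {z | ∀ D : Der K K, (∀ x ∈ X, D x = 0) → (∀ m < n, D (algebraMap A K (U m)) = 0) →
    (∀ m < n, D (algebraMap A K (T m)) = 0) → D z = 0}

lemma Lv_mono {X : Set K} {U T : ℕ → A} {m n : ℕ} (h : m ≤ n) : Lv X U T m ⊆ Lv X U T n :=
  fun _ hz D hD h1 h2 => hz D hD (fun i hi => h1 i (hi.trans_le h)) fun i hi =>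
    h2 i (hi.trans_le h)

open Classical in
/-- The denominators `h_n`. -/
noncomputable def HH (X : Set K) (U T Q : ℕ → A) : ℕ → A
  | 0 => 1
  | n + 1 => if algebraMap A K (Q n) ∈ Lv X U T n ∧ Prime (Q n) ∧ ¬ Q n ∣ HH X U T Q n then
      HH X U T Q n * (U n * Q n) else HH X U T Q n

/-- The condition for the step `n`. -/
def Good (X : Set K) (U T Q : ℕ → A) (n : ℕ) : Prop :=
  algebraMap A K (Q n) ∈ Lv X U T n ∧ Prime (Q n) ∧ ¬ Q n ∣ HH X U T Q n

lemma HH_good {X : Set K} {U T Q : ℕ → A} {n : ℕ} (h : Good X U T Q n) :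
    HH X U T Q (n + 1) = HH X U T Q n * (U n * Q n) := by
  have h' : algebraMap A K (Q n) ∈ Lv X U T n ∧ Prime (Q n) ∧ ¬ Q n ∣ HH X U T Q n := h
  rw [HH, if_pos h']

lemma HH_bad {X : Set K} {U T Q : ℕ → A} {n : ℕ} (h : ¬ Good X U T Q n) :
    HH X U T Q (n + 1) = HH X U T Q n := by
  have h' : ¬ (algebraMap A K (Q n) ∈ Lv X U T n ∧ Prime (Q n) ∧ ¬ Q n ∣ HH X U T Q n) := h
  rw [HH, if_neg h']

lemma squarefree_HH [UniqueFactorizationMonoid A] {X : Set K} {U T Q : ℕ → A}
    (hU : ∀ n, IsUnit (U n)) (n : ℕ) : Squarefree (HH X U T Q n) := by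
  induction n with
  | zero => exact squarefree_one
  | succ n ih =>
    by_cases hg : Good X U T Q n
    · rw [HH_good hg, ← mul_assoc, mul_comm]
      obtain ⟨-, hp, hnd⟩ := hg
      have hsq : Squarefree (HH X U T Q n * U n) := by
        refine ih.squarefree_of_dvd ?_
        obtain ⟨u, hu⟩ := hU n
        exact ⟨↑u⁻¹, by rw [← hu, mul_assoc, Units.mul_inv, mul_one]⟩
      refine squarefree_mul_iff.2 ⟨?_, hp.squarefree, hsq⟩
      rw [hp.irreducible.isRelPrime_iff_not_dvd]
      intro h
      rcases hp.dvd_or_dvd h with h | h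
      · exact hnd h
      · exact hp.not_isUnit (isUnit_of_dvd_unit h (hU n))
    · rw [HH_bad hg]
      exact ih

lemma HH_dvd {X : Set K} {U T Q : ℕ → A} (n : ℕ) : HH X U T Q n ∣ HH X U T Q (n + 1) := by
  by_cases hg : Good X U T Q n
  · rw [HH_good hg]
    exact dvd_mul_right _ _
  · rw [HH_bad hg]

lemma HH_dvd_le {X : Set K} {U T Q : ℕ → A} {m n : ℕ} (h : m ≤ n) :
    HH X U T Q m ∣ HH X U T Q n := by
  induction h with
  | refl => exact dvd_rfl
  | step _ ih => exact ih.trans (HH_dvd _)

/-- The existence of the derivation, by recursion. -/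
lemma exists_der [UniqueFactorizationMonoid A] {X : Set K} {U T : ℕ → A} (S : Setup A K X U T)
    (Q : ℕ → A) : ∃ D : Der K K, (∀ x ∈ X, D x = 0) ∧
    (∀ n, D (algebraMap A K (T n)) = (algebraMap A K (HH X U T Q (n + 1)))⁻¹) ∧
    (∀ n, Good X U T Q n → D (algebraMap A K (U n)) =
      algebraMap A K (U n) * D (algebraMap A K (Q n)) / algebraMap A K (Q n)) ∧
    ∀ n, ¬ Good X U T Q n → D (algebraMap A K (U n)) = 0 := by
  classical
  have hex : ∀ u : ℕ → K, ∃ D : Der K K, (∀ x ∈ X, D x = 0) ∧
    (∀ n, D (algebraMap A K (U n)) = u n) ∧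
    ∀ n, D (algebraMap A K (T n)) = (algebraMap A K (HH X U T Q (n + 1)))⁻¹ :=
    fun u => S.ex u _
  choose DD h1 h2 h3 using hex
  let v : ℕ → (ℕ → K) → K := fun n g => if Good X U T Q n then
    algebraMap A K (U n) * DD g (algebraMap A K (Q n)) / algebraMap A K (Q n) else 0
  let g : ℕ → (ℕ → K) := fun n => Nat.rec (motive := fun _ => ℕ → K) (fun _ => 0)
    (fun n g => Function.update g n (v n g)) n
  have hg : ∀ n, g (n + 1) = Function.update (g n) n (v n (g n)) := fun n => rfl
  let u : ℕ → K := fun n => v n (g n)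
  have hgu : ∀ n m, m < n → g n m = u m := by
    intro n
    induction n with
    | zero => intro m hm; omega
    | succ n ih =>
      intro m hm
      rw [hg]
      by_cases hmn : m = n
      · subst hmn
        rw [Function.update_self]
      · rw [Function.update_of_ne hmn]
        exact ih m (by omega)
  refine ⟨DD u, h1 u, h3 u, fun n hn => ?_, fun n hn => ?_⟩
  · have hE : (DD (g n)).diff (DD u) (algebraMap A K (Q n)) = 0 := by
      refine hn.1 _ (fun x hx => ?_) (fun m hm => ?_) fun m hm => ?_
      · show DD (g n) x - DD u x = 0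
        rw [h1 _ x hx, h1 _ x hx, sub_zero]
      · show DD (g n) _ - DD u _ = 0
        rw [h2, h2, hgu n m hm, sub_self]
      · show DD (g n) _ - DD u _ = 0
        rw [h3, h3, sub_self]
    have hE' : DD (g n) (algebraMap A K (Q n)) = DD u (algebraMap A K (Q n)) :=
      sub_eq_zero.1 hE
    rw [h2, ← hE']
    show v n (g n) = _
    simp only [v, if_pos hn]
  · rw [h2]
    show v n (g n) = _
    simp only [v, if_neg hn]

lemma exists_sys [UniqueFactorizationMonoid A] [CharP K 2] [Countable A] {X : Set K}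
    {U T : ℕ → A} (S : Setup A K X U T) : ∃ (D : Der A K) (h : ℕ → A), Sys D h := by
  obtain ⟨e, he⟩ := exists_surjective_nat A
  let Q : ℕ → A := fun n => e n.unpair.1
  have hQ : ∀ (a : A) (N : ℕ), ∃ n, N ≤ n ∧ Q n = a := by
    intro a N
    obtain ⟨i, rfl⟩ := he a
    refine ⟨Nat.pair i N, Nat.right_le_pair i N, ?_⟩
    show e (Nat.pair i N).unpair.1 = e i
    rw [Nat.unpair_pair]
  obtain ⟨D, hX, hT, hU, hU0⟩ := exists_der S Q
  set H := HH X U T Q with hH
  have hinj := IsFractionRing.injective A K
  have hH0 : ∀ n, algebraMap A K (H n) ≠ 0 := by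
    intro n
    rw [Ne, map_eq_zero_iff _ hinj]
    intro h
    have := squarefree_HH (X := X) (T := T) (Q := Q) S.unit n
    rw [← hH, h] at this
    exact not_squarefree_zero this
  have hU1 : ∀ n, algebraMap A K (U n) ≠ 0 := by
    intro n
    rw [Ne, map_eq_zero_iff _ hinj]
    exact (S.unit n).ne_zero
  -- the factor added in a good step is a constant
  have hgoodconst : ∀ n, Good X U T Q n → D (algebraMap A K (U n * Q n)) = 0 := by
    intro n hn
    have hq : algebraMap A K (Q n) ≠ 0 := by
      rw [Ne, map_eq_zero_iff _ hinj]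
      exact hn.2.1.ne_zero
    have h2 : (2 : K) = 0 := CharTwo.two_eq_zero
    rw [map_mul, D.leib, hU n hn]
    field_simp
    linear_combination h2 * (algebraMap A K (U n) * D (algebraMap A K (Q n)))
  have hconst : ∀ n, D (algebraMap A K (H n)) = 0 := by
    intro n
    induction n with
    | zero =>
      show D (algebraMap A K 1) = 0
      rw [map_one, D.map_one]
    | succ n ih =>
      by_cases hg : Good X U T Q n
      · rw [hH, HH_good hg, map_mul, D.leib, hgoodconst n hg, ← hH, ih, mul_zero, mul_zero,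
          add_zero]
      · rw [hH, HH_bad hg]
        exact ih
  -- the square of `D`
  have hsqT : ∀ n, D (D (algebraMap A K (T n))) = 0 := by
    intro n
    rw [hT, D.map_inv _ (hH0 _), hconst, neg_zero, zero_div]
  have hsqU : ∀ n, D (D (algebraMap A K (U n))) = 0 := by
    intro n
    induction n using Nat.strong_induction_on with
    | _ n ih =>
      by_cases hg : Good X U T Q n
      · have hq : algebraMap A K (Q n) ≠ 0 := by
          rw [Ne, map_eq_zero_iff _ hinj]
          exact hg.2.1.ne_zero
        have h1 : D (D (algebraMap A K (Q n))) = 0 :=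
          hg.1 D.square (fun x hx => by
            show D (D x) = 0
            rw [hX x hx, D.map_zero]) (fun m hm => ih m hm) fun m _ => hsqT m
        rw [hU n hg, div_eq_mul_inv, D.leib, D.leib, h1, D.map_inv _ hq, hU n hg]
        field_simp
        ring
      · rw [hU0 n hg, D.map_zero]
  have hsq : ∀ a : A, D (D (algebraMap A K a)) = 0 := by
    intro a
    obtain ⟨n, hn⟩ := S.fin a
    exact hn D.square (fun x hx => by
      show D (D x) = 0
      rw [hX x hx, D.map_zero]) (fun m _ => hsqU m) fun m _ => hsqT m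
  -- the denominators
  let M : ℕ → Submodule A K := fun n =>
    { carrier := {z | ∃ c : A, algebraMap A K (H n) * z = algebraMap A K c}
      add_mem' := by
        rintro a b ⟨c, hc⟩ ⟨c', hc'⟩
        exact ⟨c + c', by rw [mul_add, hc, hc', map_add]⟩
      zero_mem' := ⟨0, by rw [mul_zero, map_zero]⟩
      smul_mem' := by
        rintro r a ⟨c, hc⟩
        refine ⟨r * c, ?_⟩
        rw [Algebra.smul_def, map_mul, ← hc]
        ring }
  have hM : ∀ m n, m ≤ n → M m ≤ M n := by
    rintro m n hmn z ⟨c, hc⟩
    obtain ⟨f, hf⟩ := HH_dvd_le (X := X) (U := U) (T := T) (Q := Q) hmn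
    refine ⟨f * c, ?_⟩
    have hf' : H n = H m * f := hf
    rw [hf', map_mul, map_mul, ← hc]
    ring
  have hstep : ∀ n, (∀ m < n, D (algebraMap A K (U m)) ∈ M n ∧ D (algebraMap A K (T m)) ∈ M n) →
      ∀ a : A, algebraMap A K a ∈ Lv X U T n → D (algebraMap A K a) ∈ M n := by
    intro n hn a ha
    obtain ⟨E, hE1, hE2, hE3⟩ := S.ex (fun m => if m < n then D (algebraMap A K (U m)) else 0)
      (fun m => if m < n then D (algebraMap A K (T m)) else 0)
    have h1 : E (algebraMap A K a) ∈ M n := by
      refine S.gen (M n) E hE1 (fun m => ?_) (fun m => ?_) a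
      · rw [hE2]
        split_ifs with h
        · exact (hn m h).1
        · exact Submodule.zero_mem _
      · rw [hE3]
        split_ifs with h
        · exact (hn m h).2
        · exact Submodule.zero_mem _
    have h2 : D.diff E (algebraMap A K a) = 0 := by
      refine ha _ (fun x hx => ?_) (fun m hm => ?_) fun m hm => ?_
      · show D x - E x = 0
        rw [hX x hx, hE1 x hx, sub_zero]
      · show D _ - E _ = 0
        rw [hE2, if_pos hm, sub_self]
      · show D _ - E _ = 0
        rw [hE3, if_pos hm, sub_self]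
    have h3 : D (algebraMap A K a) = E (algebraMap A K a) := sub_eq_zero.1 h2
    rw [h3]
    exact h1
  have hvals : ∀ n, ∀ m < n, D (algebraMap A K (U m)) ∈ M n ∧ D (algebraMap A K (T m)) ∈ M n := by
    intro n
    induction n with
    | zero => intro m hm; omega
    | succ n ih =>
      intro m hm
      rcases Nat.lt_succ_iff_lt_or_eq.1 hm with h | rfl
      · exact ⟨hM _ _ n.le_succ (ih m h).1, hM _ _ n.le_succ (ih m h).2⟩
      · constructor
        · by_cases hg : Good X U T Q m
          · obtain ⟨c, hc⟩ := hstep m ih (Q m) hg.1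
            have hq : algebraMap A K (Q m) ≠ 0 := by
              rw [Ne, map_eq_zero_iff _ hinj]
              exact hg.2.1.ne_zero
            refine ⟨U m * U m * c, ?_⟩
            rw [hU m hg, hH, HH_good hg, ← hH]
            simp only [map_mul]
            rw [← hc]
            field_simp
          · rw [hU0 m hg]
            exact Submodule.zero_mem _
        · refine ⟨1, ?_⟩
          rw [hT, mul_inv_cancel₀ (hH0 _), map_one]
  -- every prime divides some denominator
  have hprime : ∀ q : A, Prime q → ∃ n, q ∣ H n := by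
    intro q hq
    obtain ⟨N, hN⟩ := S.fin q
    obtain ⟨n, hn, hQn⟩ := hQ q N
    by_cases hd : q ∣ H n
    · exact ⟨n, hd⟩
    · have hg : Good X U T Q n := by
        refine ⟨?_, ?_, ?_⟩
        · rw [hQn]
          exact Lv_mono hn hN
        · rw [hQn]
          exact hq
        · rw [hQn]
          exact hd
      refine ⟨n + 1, ?_⟩
      rw [hH, HH_good hg, hQn, ← mul_assoc]
      exact dvd_mul_left _ _
  refine ⟨D.restr, H, ?_⟩
  refine ⟨rfl, fun n => HH_dvd n, hconst, squarefree_HH S.unit, ?_, ?_, ?_⟩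
  · intro n
    cases n with
    | zero =>
      refine ⟨H 1 * T 0, ?_⟩
      show D (algebraMap A K (H 1 * T 0)) = _
      rw [map_mul, D.leib, hconst, mul_zero, add_zero, hT, zero_add,
        mul_inv_cancel₀ (hH0 1)]
      show (1 : K) = (algebraMap A K 1)⁻¹
      rw [map_one, inv_one]
    | succ n => exact ⟨T n, hT n⟩
  · intro a
    obtain ⟨n, hn⟩ := S.fin a
    obtain ⟨c, hc⟩ := hstep n (hvals n) a hn
    refine ⟨n, c, ?_, hc⟩
    show D (algebraMap A K c) = 0
    rw [← hc, D.leib, hconst, hsq, mul_zero, mul_zero, add_zero]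
  · intro q hq
    have hex := hprime q hq
    classical
    have hn := Nat.find_spec hex
    have hmin := fun m (hm : m < Nat.find hex) => Nat.find_min hex hm
    generalize Nat.find hex = n at hn hmin
    cases n with
    | zero => exact absurd hn (fun h => hq.not_isUnit (isUnit_of_dvd_one h))
    | succ n =>
      have hnd := hmin n n.lt_succ_self
      by_cases hg : Good X U T Q n
      · refine ⟨U n * Q n, ?_, hgoodconst n hg, n + 1, hn⟩
        have h1 : q ∣ Q n := by
          rw [hH, HH_good hg] at hn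
          rcases hq.dvd_or_dvd hn with h | h
          · exact absurd h hnd
          · rcases hq.dvd_or_dvd h with h | h
            · exact absurd (isUnit_of_dvd_unit h (S.unit n)) hq.not_isUnit
            · exact h
        have h2 : Associated q (Q n) := hq.irreducible.associated_of_dvd hg.2.1.irreducible h1
        obtain ⟨u, hu⟩ := S.unit n
        refine h2.trans ⟨u, ?_⟩
        rw [hu, mul_comm]
      · rw [hH, HH_bad hg] at hn
        exact absurd hn hnd

end Recursion

/-! ### The example -/

open MvPolynomial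

/-- The polynomial ring `𝔽₂[u_0, u_1, …, t_0, t_1, …]`. -/
abbrev BB : Type := MvPolynomial (ℕ ⊕ ℕ) (ZMod 2)

/-- The field `k = 𝔽₂(u_0, u_1, …, t_0, t_1, …)`. -/
abbrev kk : Type := FractionRing BB

/-- The polynomial ring `k[x_1, …, x_d]`. -/
abbrev AA (d : ℕ) : Type := MvPolynomial (Fin d) kk

/-- Its fraction field. -/
abbrev KK (d : ℕ) : Type := FractionRing (AA d)

lemma countable_AA (d : ℕ) : Countable (AA d) := by
  have h1 : Countable BB := by
    rw [← Cardinal.mk_le_aleph0_iff]
    refine (MvPolynomial.cardinalMk_le_max (σ := ℕ ⊕ ℕ) (R := ZMod 2)).trans ?_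
    refine max_le (max_le ?_ ?_) le_rfl
    · exact Cardinal.mk_le_aleph0
    · exact Cardinal.mk_le_aleph0
  have h2 : Countable kk := by
    rw [← Cardinal.mk_le_aleph0_iff]
    refine (IsLocalization.cardinalMk_le (nonZeroDivisors BB) (L := kk)).trans ?_
    exact Cardinal.mk_le_aleph0
  rw [← Cardinal.mk_le_aleph0_iff]
  refine (MvPolynomial.cardinalMk_le_max (σ := Fin d) (R := kk)).trans ?_
  refine max_le (max_le ?_ ?_) le_rfl
  · exact Cardinal.mk_le_aleph0
  · exact Cardinal.mk_le_aleph0

instance charP_kk : CharP kk 2 :=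
  charP_of_injective_algebraMap (IsFractionRing.injective BB kk) 2

instance charP_AA (d : ℕ) : CharP (AA d) 2 :=
  charP_of_injective_ringHom (C_injective (Fin d) kk) 2

instance charP_KK (d : ℕ) : CharP (KK d) 2 :=
  charP_of_injective_ringHom (IsFractionRing.injective (AA d) (KK d)) 2

/-- The inclusion of `𝔽₂[u, t]` in `K`. -/
noncomputable def inc (d : ℕ) : BB →+* KK d :=
  (algebraMap (AA d) (KK d)).comp (C.comp (algebraMap BB kk))

lemma inc_injective (d : ℕ) : Function.Injective (inc d) :=
  (IsFractionRing.injective (AA d) (KK d)).comp ((C_injective (Fin d) kk).comp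
    (IsFractionRing.injective BB kk))

lemma dual_snd_mul {L : Type*} [Field L] (x y : DualNumber L) :
    (x * y).snd = x.fst * y.snd + y.fst * x.snd := by
  rw [TrivSqZeroExt.snd_mul]
  simp [mul_comm]

/-- A ring homomorphism to the dual numbers over the identity gives a derivation. -/
def derOf {L : Type} [Field L] (Φ : L →+* DualNumber L) (h : ∀ a, (Φ a).fst = a) : Der L L where
  toFun a := (Φ a).snd
  map_add' a b := by rw [map_add, TrivSqZeroExt.snd_add]
  leibniz' a b := by
    rw [map_mul, dual_snd_mul, h, h]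
    simp

/-- Derivations with prescribed values. -/
lemma exists_D (d : ℕ) (g : ℕ ⊕ ℕ → KK d) : ∃ D : Der (KK d) (KK d),
    (∀ j, D (algebraMap (AA d) (KK d) (X j)) = 0) ∧ ∀ i, D (inc d (X i)) = g i := by
  let fstH : DualNumber (KK d) →+* KK d := (TrivSqZeroExt.fstHom (KK d) (KK d) (KK d)).toRingHom
  have hfst : ∀ z, fstH z = z.fst := fun z => rfl
  -- on the polynomials in the variables
  let φ0 : BB →+* DualNumber (KK d) :=
    eval₂Hom ((TrivSqZeroExt.inlHom (KK d) (KK d)).comp ((inc d).comp C))
      (fun n => TrivSqZeroExt.inl (inc d (X n)) + TrivSqZeroExt.inr (g n))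
  have h0 : fstH.comp φ0 = inc d := by
    refine MvPolynomial.ringHom_ext ?_ ?_
    · intro r
      simp [φ0, hfst]
    · intro n
      simp [φ0, hfst]
  have hunit : ∀ y : nonZeroDivisors BB, IsUnit (φ0 y) := by
    intro y
    rw [TrivSqZeroExt.isUnit_iff_isUnit_fst, isUnit_iff_ne_zero]
    have h1 : (φ0 y).fst = inc d y := congrArg (fun f : BB →+* KK d => f y) h0
    rw [h1, Ne, map_eq_zero_iff _ (inc_injective d)]
    exact nonZeroDivisors.ne_zero y.2
  let φ1 : kk →+* DualNumber (KK d) := IsLocalization.lift hunit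
  have h1 : fstH.comp φ1 = (algebraMap (AA d) (KK d)).comp C := by
    refine IsLocalization.ringHom_ext (nonZeroDivisors BB) ?_
    rw [RingHom.comp_assoc, IsLocalization.lift_comp, h0]
    rfl
  let φ2 : AA d →+* DualNumber (KK d) :=
    eval₂Hom φ1 (fun i => TrivSqZeroExt.inl (algebraMap (AA d) (KK d) (X i)))
  have h2 : fstH.comp φ2 = algebraMap (AA d) (KK d) := by
    refine MvPolynomial.ringHom_ext ?_ ?_
    · intro r
      have := congrArg (fun f : kk →+* KK d => f r) h1
      simpa [φ2] using this
    · intro i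
      simp [φ2, hfst]
  have hunit2 : ∀ y : nonZeroDivisors (AA d), IsUnit (φ2 y) := by
    intro y
    rw [TrivSqZeroExt.isUnit_iff_isUnit_fst, isUnit_iff_ne_zero]
    have h1 : (φ2 y).fst = algebraMap (AA d) (KK d) y :=
      congrArg (fun f : AA d →+* KK d => f y) h2
    rw [h1, Ne, map_eq_zero_iff _ (IsFractionRing.injective (AA d) (KK d))]
    exact nonZeroDivisors.ne_zero y.2
  let φ3 : KK d →+* DualNumber (KK d) := IsLocalization.lift hunit2
  have h3 : fstH.comp φ3 = RingHom.id (KK d) := by
    refine IsLocalization.ringHom_ext (nonZeroDivisors (AA d)) ?_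
    rw [RingHom.comp_assoc, IsLocalization.lift_comp, h2]
    rfl
  refine ⟨derOf φ3 fun a => congrArg (fun f : KK d →+* KK d => f a) h3, fun j => ?_, fun i => ?_⟩
  · show (φ3 (algebraMap (AA d) (KK d) (X j))).snd = 0
    have e1 : φ3 (algebraMap (AA d) (KK d) (X j)) = φ2 (X j) := IsLocalization.lift_eq hunit2 _
    rw [e1]
    simp [φ2]
  · show (φ3 (inc d (X i))).snd = g i
    have e1 : φ3 (inc d (X i)) = φ2 (C (algebraMap BB kk (X i))) :=
      IsLocalization.lift_eq hunit2 _
    have e2 : φ2 (C (algebraMap BB kk (X i))) = φ0 (X i) := by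
      simp only [φ2, coe_eval₂Hom, eval₂_C]
      exact IsLocalization.lift_eq hunit (X i)
    rw [e1, e2]
    simp [φ0]

/-- An induction principle for the elements of `A`. -/
lemma AA_induction (d : ℕ) (P : KK d → Prop) (h0 : P 0) (h1 : P 1)
    (hadd : ∀ a b, P a → P b → P (a + b)) (hmul : ∀ a b, P a → P b → P (a * b))
    (hinv : ∀ z, (∃ a, algebraMap (AA d) (KK d) a = z⁻¹) → P z → P z⁻¹)
    (hB : ∀ i, P (inc d (X i))) (hX : ∀ j, P (algebraMap (AA d) (KK d) (X j))) (a : AA d) :
    P (algebraMap (AA d) (KK d) a) := by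
  have hBB : ∀ b : BB, P (inc d b) := by
    intro b
    induction b using MvPolynomial.induction_on with
    | C r =>
      have hr : r = 0 ∨ r = 1 := by
        revert r
        decide
      rcases hr with rfl | rfl
      · rw [C_0, map_zero]
        exact h0
      · rw [C_1, map_one]
        exact h1
    | add p q hp hq =>
      rw [map_add]
      exact hadd _ _ hp hq
    | mul_X p i hp =>
      rw [map_mul]
      exact hmul _ _ hp (hB i)
  have hkk : ∀ c : kk, P (algebraMap (AA d) (KK d) (C c)) := by
    intro c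
    obtain ⟨p, q, hq, rfl⟩ := IsFractionRing.div_surjective (A := BB) c
    have e : algebraMap (AA d) (KK d) (C (algebraMap BB kk p / algebraMap BB kk q)) =
        inc d p * (inc d q)⁻¹ := by
      have hq0 : inc d q ≠ 0 := by
        rw [Ne, map_eq_zero_iff _ (inc_injective d)]
        exact nonZeroDivisors.ne_zero hq
      have hq1 : algebraMap BB kk q ≠ 0 := by
        rw [Ne, map_eq_zero_iff _ (IsFractionRing.injective BB kk)]
        exact nonZeroDivisors.ne_zero hq
      rw [eq_mul_inv_iff_mul_eq₀ hq0]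
      show algebraMap (AA d) (KK d) (C (algebraMap BB kk p / algebraMap BB kk q)) *
        algebraMap (AA d) (KK d) (C (algebraMap BB kk q)) =
        algebraMap (AA d) (KK d) (C (algebraMap BB kk p))
      rw [← map_mul, ← C_mul, div_mul_cancel₀ _ hq1]
    rw [e]
    refine hmul _ _ (hBB p) (hinv _ ⟨C (algebraMap BB kk q)⁻¹, ?_⟩ (hBB q))
    have hq1 : algebraMap BB kk q ≠ 0 := by
      rw [Ne, map_eq_zero_iff _ (IsFractionRing.injective BB kk)]
      exact nonZeroDivisors.ne_zero hq
    apply eq_inv_of_mul_eq_one_left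
    show algebraMap (AA d) (KK d) (C (algebraMap BB kk q)⁻¹) *
      algebraMap (AA d) (KK d) (C (algebraMap BB kk q)) = 1
    rw [← map_mul, ← C_mul, inv_mul_cancel₀ hq1, C_1, map_one]
  induction a using MvPolynomial.induction_on with
  | C c => exact hkk c
  | add p q hp hq =>
    rw [map_add]
    exact hadd _ _ hp hq
  | mul_X p i hp =>
    rw [map_mul]
    exact hmul _ _ hp (hX i)

/-- The units `u_n`. -/
noncomputable def Uv (d : ℕ) (n : ℕ) : AA d := C (algebraMap BB kk (X (Sum.inl n)))

/-- The elements `t_n`. -/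
noncomputable def Tv (d : ℕ) (n : ℕ) : AA d := C (algebraMap BB kk (X (Sum.inr n)))

lemma setup (d : ℕ) : Setup (AA d) (KK d)
    (Set.range fun j => algebraMap (AA d) (KK d) (X j)) (Uv d) (Tv d) where
  unit n := by
    refine IsUnit.map C (isUnit_iff_ne_zero.2 ?_)
    rw [Ne, map_eq_zero_iff _ (IsFractionRing.injective BB kk)]
    exact X_ne_zero _
  ex u t := by
    obtain ⟨D, h1, h2⟩ := exists_D d (Sum.elim u t)
    refine ⟨D, ?_, fun n => h2 (Sum.inl n), fun n => h2 (Sum.inr n)⟩
    rintro _ ⟨j, rfl⟩
    exact h1 j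
  gen := by
    intro M D hX hU hT a
    have key := AA_induction d (fun z => (∃ a, algebraMap (AA d) (KK d) a = z) ∧ D z ∈ M)
      ⟨⟨0, map_zero _⟩, by rw [D.map_zero]; exact M.zero_mem⟩
      ⟨⟨1, map_one _⟩, by rw [D.map_one]; exact M.zero_mem⟩
      (by
        rintro _ _ ⟨⟨a, rfl⟩, ha⟩ ⟨⟨b, rfl⟩, hb⟩
        refine ⟨⟨a + b, map_add _ _ _⟩, ?_⟩
        rw [D.map_add]
        exact M.add_mem ha hb)
      (by
        rintro _ _ ⟨⟨a, rfl⟩, ha⟩ ⟨⟨b, rfl⟩, hb⟩
        refine ⟨⟨a * b, map_mul _ _ _⟩, ?_⟩
        rw [D.leib, ← Algebra.smul_def, ← Algebra.smul_def]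
        exact M.add_mem (M.smul_mem _ hb) (M.smul_mem _ ha))
      (by
        rintro z ⟨a, ha⟩ ⟨-, hz⟩
        refine ⟨⟨a, ha⟩, ?_⟩
        by_cases hz0 : z = 0
        · rw [hz0, inv_zero, D.map_zero]
          exact M.zero_mem
        · have e : D z⁻¹ = -((a * a) • D z) := by
            rw [D.map_inv z hz0, Algebra.smul_def, map_mul, ha]
            field_simp
          rw [e]
          exact M.neg_mem (M.smul_mem _ hz))
      (by
        intro i
        refine ⟨⟨C (algebraMap BB kk (X i)), rfl⟩, ?_⟩
        cases i with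
        | inl n => exact hU n
        | inr n => exact hT n)
      (by
        intro j
        refine ⟨⟨X j, rfl⟩, ?_⟩
        rw [hX _ ⟨j, rfl⟩]
        exact M.zero_mem) a
    exact key.2
  fin a := by
    refine AA_induction d (fun z => ∃ n, ∀ D : Der (KK d) (KK d),
      (∀ x ∈ Set.range fun j => algebraMap (AA d) (KK d) (X j), D x = 0) →
      (∀ m < n, D (algebraMap (AA d) (KK d) (Uv d m)) = 0) →
      (∀ m < n, D (algebraMap (AA d) (KK d) (Tv d m)) = 0) → D z = 0) ?_ ?_ ?_ ?_ ?_ ?_ ?_ a
    · exact ⟨0, fun D _ _ _ => D.map_zero⟩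
    · exact ⟨0, fun D _ _ _ => D.map_one⟩
    · rintro x y ⟨n, hn⟩ ⟨m, hm⟩
      refine ⟨max n m, fun D h1 h2 h3 => ?_⟩
      rw [D.map_add, hn D h1 (fun i hi => h2 i (lt_max_of_lt_left hi))
        (fun i hi => h3 i (lt_max_of_lt_left hi)), hm D h1 (fun i hi => h2 i
        (lt_max_of_lt_right hi)) (fun i hi => h3 i (lt_max_of_lt_right hi)), add_zero]
    · rintro x y ⟨n, hn⟩ ⟨m, hm⟩
      refine ⟨max n m, fun D h1 h2 h3 => ?_⟩
      rw [D.leib, hn D h1 (fun i hi => h2 i (lt_max_of_lt_left hi))
        (fun i hi => h3 i (lt_max_of_lt_left hi)), hm D h1 (fun i hi => h2 i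
        (lt_max_of_lt_right hi)) (fun i hi => h3 i (lt_max_of_lt_right hi)), mul_zero, mul_zero,
        add_zero]
    · rintro z - ⟨n, hn⟩
      refine ⟨n, fun D h1 h2 h3 => ?_⟩
      by_cases hz0 : z = 0
      · rw [hz0, inv_zero, D.map_zero]
      · rw [D.map_inv z hz0, hn D h1 h2 h3, neg_zero, zero_div]
    · intro i
      cases i with
      | inl n => exact ⟨n + 1, fun D _ h2 _ => h2 n n.lt_succ_self⟩
      | inr n => exact ⟨n + 1, fun D _ _ h3 => h3 n n.lt_succ_self⟩
    · intro j
      exact ⟨0, fun D h1 _ _ => h1 _ ⟨j, rfl⟩⟩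

/-- **Seminormal Noetherian domains of every dimension all of whose height-one primes are associated
to the normalization quotient.** -/
theorem result (d : ℕ) : ∃ (R : Type) (_ : CommRing R) (_ : IsDomain R),
    IsNoetherianRing R ∧ ringKrullDim R = d ∧ IsSeminormal R ∧ HeightOneAssociated R := by
  have hc := countable_AA d
  obtain ⟨D, h, S⟩ := exists_sys (setup d)
  refine ⟨ringOf D, inferInstance, inferInstance, S.isNoetherianRing_ringOf, ?_, S.isSeminormal,
    S.heightOneAssociated⟩
  rw [ringKrullDim_ringOf, MvPolynomial.ringKrullDim_of_isNoetherianRing,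
    ringKrullDim_eq_zero_of_field, zero_add, Nat.card_eq_fintype_card, Fintype.card_fin]

end Pool.Agent.Results.MP_8f4fb2_ag.AllDimensions
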